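import Mathlib
import Pool.Agent.helper61.TP.SpecR

/-!
# Project TW (MP_f42afa_pr): two-round algorithms for critical crossings (helper25)

THEOREM (`FIN`). There is `c > 0` such that for all `n ≥ 2` every two-round algorithm for the left-right crossing of the `n × n` rhombus of the triangular lattice (first a fixed set `A` of sites is
queried, then a set `B x` which depends only on the answers in `A`; the answers in `A` and `B x` decide the crossing) queries on average at least `c n² / log n` sites.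

Main step (`SPR`): for a FIXED finite set `S` of sites the probability that `S` contains a monochromatic path from `box x t` to distance `3 t` is at most `C #S / t²`. Proof: translate `S` by the
`≥ t²/256` vectors of a box; if a rectangle has a blocking path with only `K` sites of colour `k`, at most `K #S` translates are crossed; the minimal `K` is the number of disjoint crossings (Hex),
which has a geometric tail (BK, RSW).

RULES. Row `XXX`: file `Pool/Agent/<seat>/TW/XXX.lean`, `import Pool.Agent.helper25.TW.Spec` (plus library files named in the docstring), `set_option autoImplicit false`, `namespace TP.TW`,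
`open DP MeasureTheory Finset`, `theorem XXX (h1 : YYY_stmt) ... : XXX_stmt` with any other `_stmt` of this file as hypotheses (no circles). Auxiliary lemmas private or prefixed `XXX_`.
No straight double quotes, no convert / congr!. Land, note = DONE + path, one line to helper25. A doubt about a statement: one line at once.

Library (brick wall model of the triangular lattice, `V = ℤ × ℤ`): `DP.Asm_HX : DP.HX_stmt` (Hex in a rectangle, any colouring), `DP.Asm_RC : DP.RC_stmt` (crossings in the two directions meet), both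
`import Pool.Agent.helper61.DP.AsmA`; `TP.RSW : TP.RSW_stmt` (`import Pool.Agent.helper61.TP.RSW`); `TP.TQD` (Hex in the rhombus from `HX_stmt`, `import Pool.Agent.helper61.TP.TQ`); `TP.TSY`, `TP.RLM`, `TP.TSX`
(`import Pool.Agent.helper61.TP.Sym`); `TP.Bbk : TP.Bbk_stmt` (`import Pool.Agent.helper64.TP.BBK`); many small lemmas in `Pool/Agent/helper64/TP/Basic.lean` (`br_adj`, `br_eq_sd`, `Loc.ev`, `Loc.mono`,
`col_congr`, ...) and in `Pool/Agent/helper61/TP/Sym.lean`.
-/

set_option autoImplicit false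

namespace TP.TW

open DP MeasureTheory Finset

/-! ## Definitions -/

/-- The sites of the bricks in `S` (the elements of `S` are left sites of bricks). -/
def til (S : Finset V) : Set V := {v | br v ∈ S}

/-- The translate of `S` by `τ`. -/
def shf (τ : ℤ × ℤ) (S : Finset V) : Finset V := S.image fun v => (v.1 + τ.1, v.2 + τ.2)

/-- Crossing of colour `k` of a rectangle inside `W`: from bottom to top if `o = true`, from left to right if `o = false`. -/
def crs (o : Bool) (c : V → Bool) (k : Bool) (W : Set V) (a b d e : ℤ) : Prop :=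
  ∃ u v : V, (if o then u.2 = d ∧ v.2 = e else u.1 = a ∧ v.1 = b) ∧ Conn c k (rect a b d e ∩ W) u v

/-- At least `m` crossings without common brick. -/
def many (o : Bool) (c : V → Bool) (k : Bool) (a b d e : ℤ) (m : ℕ) : Prop :=
  ∃ L : ℕ → Set V, (∀ i < m, crs o c k (L i) a b d e) ∧ ∀ i < m, ∀ j < m, i ≠ j → BDis (L i) (L j)

/-- A path across the rectangle in the OTHER direction which meets at most `K` bricks of colour `k`. -/
def cut (o : Bool) (c : V → Bool) (k : Bool) (a b d e : ℤ) (K : ℕ) : Prop :=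
  ∃ (W : Set V) (u v : V), W ⊆ rect a b d e ∧ Con W u v ∧ (if o then u.1 = a ∧ v.1 = b else u.2 = d ∧ v.2 = e) ∧
    ∃ B : Finset V, B.card ≤ K ∧ ∀ w ∈ W, c w = k → br w ∈ B

/-- A path of colour `k` in the bricks of `S` from `box x t` to distance `3 t`. -/
def SR (c : V → Bool) (k : Bool) (S : Finset V) (x : V) (t : ℕ) : Prop :=
  ∃ u v : V, sd x u ≤ t ∧ 3 * t ≤ sd x v ∧ Conn c k (til S) u v

/-- The coordinates of the brick of `v` in the rhombus: `(I v, v.2)`. -/
def I (v : V) : ℤ := (v.1 - v.2) / 2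

/-- Distance in the coordinates `(I v, v.2)`. -/
def dI (v w : V) : ℕ := max (I v - I w).natAbs (v.2 - w.2).natAbs

/-- The bad event for the brick `v₀`. -/
def BAD (c : V → Bool) (S : Finset V) (v₀ : V) : Prop :=
  ∃ (k : Bool) (w z : V), (I w = I v₀ ∨ w.2 = v₀.2) ∧ 1 ≤ dI v₀ w ∧ dI v₀ w ≤ 8 * (dI w z + 1) ∧ Conn c k (til S) w z

/-- The coins used for the relevance of `v₀`: unchanged in `S`, `q` at `v₀`, black in the sector `4 |j - j₀| ≤ |i - i₀|`, white elsewhere. -/
def fil (β : V → Bool) (S : Finset V) (v₀ : V) (q : Bool) (v : V) : Bool :=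
  if v ∈ S then β v else if v = v₀ then q else decide (4 * (v.2 - v₀.2).natAbs ≤ (I v - I v₀).natAbs)

/-- The left site of the brick `(i, j)`. -/
def phi {n : ℕ} (p : Fin n × Fin n) : V := (2 * (p.1 : ℤ) + (p.2 : ℤ), (p.2 : ℤ))

/-- The `n × n` rhombus of the triangular lattice. -/
def tri (n : ℕ) : SimpleGraph (Fin n × Fin n) :=
  SimpleGraph.fromRel fun u w : Fin n × Fin n =>
    (((u.1 : ℕ) : ℤ) - ((w.1 : ℕ) : ℤ) = 1 ∧ ((u.2 : ℕ) : ℤ) = ((w.2 : ℕ) : ℤ)) ∨
    (((u.1 : ℕ) : ℤ) = ((w.1 : ℕ) : ℤ) ∧ ((u.2 : ℕ) : ℤ) - ((w.2 : ℕ) : ℤ) = 1) ∨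
    (((u.1 : ℕ) : ℤ) - ((w.1 : ℕ) : ℤ) = 1 ∧ ((w.2 : ℕ) : ℤ) - ((u.2 : ℕ) : ℤ) = 1)

/-- The crossing event: a path of open sites (`true`) from the side `i = 0` to the side `i = n - 1`. -/
def Crossing (n : ℕ) (x : Fin n × Fin n → Bool) : Prop :=
  ∃ a b : Fin n × Fin n, ∃ p : (tri n).Walk a b, (a.1 : ℕ) = 0 ∧ (b.1 : ℕ) + 1 = n ∧ ∀ v ∈ p.support, x v = true

/-! ## Part 1: deterministic statements -/

/-- **ANR** (medium). From an annulus to one of four rectangles. `x = (p, q)`. Take a path (list) in `til S` of colour `k` from `u` to `v`; `sd x` changes by at most 1 at each step, so there is a first site `z` with `sd x z = 3 t`. Say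
`z.2 = q + 3 t` (four cases). Going back from `z`, let `y` be the last site before `z` with `y.2 ≤ q + t` (the start `u` has `u.2 ≤ q + t`): `y.2 = q + t`, and the part from `y` to `z` lies in
`rect (p - 3t) (p + 3t) (q + t) (q + 3t)` (all sites before `z` have `sd x < 3 t`). It may be convenient to prove first a lemma on `Relation.ReflTransGen`/`Con` (a path from a site with `f ≤ m` to a site with `f ≥ m'`, `f` a coordinate changing by at most one,
contains a part between the levels `m` and `m'` which stays between them), compare `DP.RHM`. -/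
def ANR_stmt : Prop := ∀ (c : V → Bool) (k : Bool) (S : Finset V) (x : V) (t : ℕ), 1 ≤ t → SR c k S x t →
  crs true c k (til S) (x.1 - 3 * t) (x.1 + 3 * t) (x.2 + t) (x.2 + 3 * t) ∨
  crs true c k (til S) (x.1 - 3 * t) (x.1 + 3 * t) (x.2 - 3 * t) (x.2 - t) ∨
  crs false c k (til S) (x.1 + t) (x.1 + 3 * t) (x.2 - 3 * t) (x.2 + 3 * t) ∨
  crs false c k (til S) (x.1 - 3 * t) (x.1 - t) (x.2 - 3 * t) (x.2 + 3 * t)

/-- **MNO** (short-medium). Monotonicity of the crossings of rectangles, as `DP.RHM` (`Pool/Agent/helper61/DP/RHM.lean`), inside a set `W`: a bottom-top crossing of a rectangle contains one of a rectangle which is wider and less high. -/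
def MNO_stmt : Prop := ∀ (c : V → Bool) (k : Bool) (W : Set V) (a b d e a' b' d' e' : ℤ),
  (a' ≤ a → b ≤ b' → d ≤ d' → d' ≤ e' → e' ≤ e → crs true c k W a b d e → crs true c k W a' b' d' e') ∧
  (a ≤ a' → a' ≤ b' → b' ≤ b → d' ≤ d → e ≤ e' → crs false c k W a b d e → crs false c k W a' b' d' e')

/-- **CT0** (short). The straight row (`o = true`; `W` = the sites of the row `d`) resp. column meets at most that many bricks. -/
def CT0_stmt : Prop := ∀ (o : Bool) (c : V → Bool) (k : Bool) (a b d e : ℤ) (K : ℕ), a ≤ b → d ≤ e → b - a + 1 ≤ K → e - d + 1 ≤ K →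
  cut o c k a b d e K

/-- **MEN** (medium, the heart of the deterministic part; library `DP.Asm_HX`). Minimal cut and disjoint crossings. `o = true` (the case `o = false` is the same with the roles of the sides exchanged; `HX` gives for every colouring `c'` of the fine grid
a left-right crossing of colour `k'` or a bottom-top crossing of the other colour, for both values of `k'`).
For `j ≤ K` let `A j` be the set of the sites `z` of the rectangle `R` for which there are `W ⊆ R`, `u` with `u.1 = a`, `Con W u z`, and `B` with `#B ≤ j` and `br w ∈ B` for all `w ∈ W` of colour `k`. If `A K` contains a site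
with `.1 = b`, the cut exists. Otherwise, for `j ≤ K`, let `L j` be the set of the `z ∈ R` of colour `k` with `z ∉ A j`, and (`z.1 = a` or `z` is adjacent to a site of `A j`). (1) `L j` is crossed from bottom to top: apply Hex to the colouring
`c' z = decide (z ∈ L j)` (if `k = true`; negated otherwise): if not, there is a left-right path in `R` outside `L j`; by induction all its sites are in `A j`: the first one `z` has `z.1 = a`; if it is not of colour `k` it is in `A j` (`W = {z}`,
`B = ∅`), and if it is of colour `k` and not in `A j` it is in `L j`; the next site `z'` of a site `z ∈ A j`: if its colour is not `k` then `z' ∈ A j` (add it to `W`), otherwise `z' ∈ A j` or `z' ∈ L j`. So the last site is in `A j ⊆ A K`, contradiction.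
The crossing in `L j` consists of sites of colour `k` (definition of `L j`). (2) For `i < j` no brick meets both `L i` and `L j`: let `z ∈ L i`, `z' ∈ L j`, `br z = br z'`. `z ∈ A (i+1)` (one more brick), and `z'` is `z` or adjacent to `z` (`br_adj`) and in
the same brick, so `z' ∈ A (i+1) ⊆ A j` (the same `B`; both have the colour `k`), contradiction. -/
def MEN_stmt : Prop := ∀ (o : Bool) (β : V → Bool) (k : Bool) (a b d e : ℤ) (K : ℕ), a ≤ b → d ≤ e →
  cut o (col β) k a b d e K ∨ many o (col β) k a b d e (K + 1)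

open Classical in
/-- **DET** (short-medium; library `DP.Asm_RC`). Let `W`, `B` be as in `cut`. If the crossing inside `til (shf τ S)` exists, its set of sites `W' = {w ∈ rect ∩ til (shf τ S) | col w = k}` meets `W` (`RC`, in the order `W`, `W'` for `o = true`, `W'`, `W` for `o = false`) in a site
`z` of colour `k`; so `br z ∈ B` and `br z ∈ shf τ S`, `br z = s + τ` with `s ∈ S`. `τ ↦ (br z, s) ∈ B ×ˢ S` is injective. -/
def DET_stmt : Prop := ∀ (o : Bool) (β : V → Bool) (k : Bool) (a b d e : ℤ) (K : ℕ) (S : Finset V) (T : Finset (ℤ × ℤ)),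
  cut o (col β) k a b d e K → #{τ ∈ T | crs o (col β) k (til (shf τ S)) a b d e} ≤ K * #S

/-- **REA** (medium; library `TP.TQD DP.Asm_HX`). Notation: `ρ = dI v₀ w`. `dI` and the coordinates `I`, `.2` change by at most 1 between adjacent sites (`Adj`: differences `(±1, 0)`, `(0, ±1)`, `(1, 1)`, `(-1, -1)`, `(1, -1)`, `(-1, 1)`).
Suppose not `HR (col (fil β S v₀ true)) true m`; by TQD `VR .. false m`: a white path in `rh m` from the row `0` to the row `m`. It meets the row of `v₀` in a site `w`, not in the brick of `v₀` (which is black; same row and same `I` means same brick), so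
`ρ = |I w - I v₀| ≥ 1`, `ρ ≤ m` (both `I` are in `[0, m]`). One of the rows `0`, `m` has distance `≥ m/2 ≥ ρ/2` from the row of `w`; follow the path from `w` to its end in this row. Every white site `y` of `rh m` with
`8 * dI w y < ρ` has `|I y - I v₀| > 7ρ/8` and `4 |y.2 - v₀.2| < ρ/2`, so it is in the sector, hence `br y ∈ S`. The end of the path has `8 * dI w y ≥ 4ρ ≥ ρ`. Let `z` be the last site before the first site `z'` with `8 * dI w z' ≥ ρ`: `w` and `z` are connected in
`til S` by white sites of `col β` (`col (fil ..) y = col β y` if `br y ∈ S`), and `ρ ≤ 8 * dI w z' ≤ 8 * (dI w z + 1)`: `BAD` with `k = false`. -/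
def REA_stmt : Prop := ∀ (β : V → Bool) (m : ℤ) (S : Finset V) (v₀ : V), 0 ≤ m → v₀ ∈ rh m → br v₀ = v₀ → v₀ ∉ S → ¬ BAD (col β) S v₀ → HR (col (fil β S v₀ true)) true m

/-- **REB** (medium). As REA, without Hex: suppose `HR (col (fil β S v₀ false)) true m`, a black path from `I = 0` to `I = m` (`u.1 ≤ u.2 + 1` and `u ∈ rh m` give `I u = 0`). It meets the line `I = I v₀` in a site `w`, not in the brick of `v₀` (white), so
`ρ = |w.2 - v₀.2| ≥ 1`, `ρ ≤ m`. One of the lines `I = 0`, `I = m` is at distance `≥ m/2 ≥ ρ/2` from `I w`; follow the path from `w` to its end there. Every black site `y` of `rh m` with `8 * dI w y < ρ` has `|I y - I v₀| < ρ/8`,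
`4 |y.2 - v₀.2| > 7ρ/2`, so it is not in the sector and `br y ∈ S`. As before `BAD` with `k = true`. -/
def REB_stmt : Prop := ∀ (β : V → Bool) (m : ℤ) (S : Finset V) (v₀ : V), 0 ≤ m → v₀ ∈ rh m → br v₀ = v₀ → v₀ ∉ S → ¬ BAD (col β) S v₀ → ¬ HR (col (fil β S v₀ false)) true m

/-- **CV** (medium). Covering. `k, w, z` as in `BAD`, `ρ = dI v₀ w`, `ρ < n` (`w ∈ til S`, all bricks in the image of `phi`). Comparison: `dI u v ≤ sd u v` and `sd u v ≤ 3 * dI u v + 1`. If `ρ < 64`: `br w ∈ S`, `sd v₀ (br w) ≤ 3 * 63 + 1 + 1 ≤ 200`. If `ρ ≥ 64`: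
`2^(s+6) ≤ ρ < 2^(s+7)`, `t = 2^s`, `s ≤ log₂ n`; `sd v₀ w ≤ 384 t + 1 ≤ 400 t - 1`, take `p = ⌊(w.1 - v₀.1)/t⌋`, `q = ⌊(w.2 - v₀.2)/t⌋` (`Int.ediv`), `x = (v₀.1 + t p, v₀.2 + t q)`: `sd x w ≤ t`; `dI w z ≥ ρ/8 - 1 ≥ 8 t - 1 ≥ 4 t`, so `sd x z ≥ 4 t - t = 3 t`. -/
def CV_stmt : Prop := ∀ (n : ℕ) (c : V → Bool) (S : Finset V) (v₀ : V), 2 ≤ n → S ⊆ (univ : Finset (Fin n × Fin n)).image phi → v₀ ∈ (univ : Finset (Fin n × Fin n)).image phi → BAD c S v₀ →
  (∃ w ∈ S, sd v₀ w ≤ 200) ∨ ∃ s ∈ range (Nat.log 2 n + 1), ∃ k : Bool, ∃ p ∈ Icc (-400 : ℤ) 400, ∃ q ∈ Icc (-400 : ℤ) 400,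
    SR c k S (v₀.1 + 2 ^ s * p, v₀.2 + 2 ^ s * q) (2 ^ s)

/-- **BR1** (medium). The two models of the crossing. `phi (i, j)` is the left site of the brick `{(2i + j, j), (2i + j + 1, j)}`; the bricks of `rh (n - 1)` are exactly the `(i, j)`, `0 ≤ i, j ≤ n - 1` (`I v = i`, `v.2 = j`); two bricks contain adjacent sites iff they are
adjacent in `tri n` (or equal). From a walk to a path: for adjacent bricks go through the at most two sites of each brick (`br_adj`); from a path to a walk: the sequence of the bricks. -/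
def BR1_stmt : Prop := ∀ (n : ℕ) (β : V → Bool), 1 ≤ n → (Crossing n (fun p => β (phi p)) ↔ HR (col β) true ((n : ℤ) - 1))

/-! ## Part 2: probability -/

open Classical in
/-- **BR2** (medium). The coins `β (phi p)` are independent and fair: `P1` is the infinite product (`Measure.infinitePi`) of the uniform law on `Bool`, `phi` is injective; the law of the restriction to a finite set is the finite product, each configuration has probability
`2^(-n n)`; sum over the `x` with `E x`. (For example: `E` is a disjoint union of cylinders, `Measure.infinitePi_pi` for each.) -/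
def BR2_stmt : Prop := ∀ (n : ℕ) (E : (Fin n × Fin n → Bool) → Prop),
  Pr {β : V → Bool | E (fun p => β (phi p))} = (#{x : Fin n × Fin n → Bool | E x} : ℝ) / 2 ^ (n * n)

/-- **LCR** (short-medium). Locality (`Loc` of TP: finitely many sites, the colours). The rectangle and `til S` are finite; a connection in a set depends only on the colours there (`Loc.ev`, `Loc.conn` in `helper64/TP/Basic.lean`). -/
def LCR_stmt : Prop :=
  (∀ (o k : Bool) (W : Set V) (a b d e : ℤ), Loc (Ev fun c => crs o c k W a b d e) (rect a b d e)) ∧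
  (∀ (o k : Bool) (a b d e : ℤ) (m : ℕ), Loc (Ev fun c => many o c k a b d e m) (rect a b d e)) ∧
  (∀ (k : Bool) (S : Finset V) (x : V) (t : ℕ), Loc (Ev fun c => SR c k S x t) (til S)) ∧
  (∀ (S : Finset V) (v₀ : V), Loc (Ev fun c => BAD c S v₀) (til S))

open Classical in
/-- **EIN** (short-medium). Expectation of a pointwise inequality. Local sets are measurable (they are preimages of sets under finitely many coins); `∑ Pr (F i) = ∫ ∑ 1_(F i) ≤ ∫ N ∑ 1_(G j)`. -/
def EIN_stmt : Prop := ∀ (ι κ : Type) (s : Finset ι) (t : Finset κ) (F : ι → Set (V → Bool)) (G : κ → Set (V → Bool)) (A : Set V) (N : ℕ),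
  (∀ i ∈ s, Loc (F i) A) → (∀ j ∈ t, Loc (G j) A) → (∀ β : V → Bool, #{i ∈ s | β ∈ F i} ≤ N * #{j ∈ t | β ∈ G j}) →
  ∑ i ∈ s, Pr (F i) ≤ N * ∑ j ∈ t, Pr (G j)

/-- **BKM** (medium; library `TP.Bbk`). Induction on `m` (`m = 0`: probability at most 1). `Λ` = the sites of the rectangle as a `Finset`; `D` = the `K ⊆ Λ` which contain a crossing (`∃ u v`, ends as in `crs`, `Con ↑K u v`), `D'` = the `L ⊆ Λ` for which there is `M : ℕ → Finset V`, `M i ⊆ L`, `M i ∈ D`
for `i < m`, pairwise `BDis`; `I = Set.univ`. The event `many (m + 1)` is contained in the left event of `Bbk` (`K` = the sites of colour `k` of the rectangle in `L 0`, the union of the others for `L`), the second factor is contained in the event `many m`. -/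
def BKM_stmt : Prop := ∀ (o k : Bool) (a b d e : ℤ) (m : ℕ),
  Pr (Ev fun c => many o c k a b d e m) ≤ Pr (Ev fun c => crs o c k Set.univ a b d e) ^ m

/-- **QRS** (short-medium; library `TP.RSW DP.Asm_RC`). A bottom-top crossing of colour `k` and a left-right crossing of colour `!k` exclude each other (RC), so the sum of their probabilities is at most 1; RSW. -/
def QRS_stmt : Prop := ∃ c₀ : ℝ, 0 < c₀ ∧ c₀ ≤ 1 ∧ ∃ L : ℤ, 0 < L ∧ ∀ (k : Bool) (a b d e : ℤ), a ≤ b → d ≤ e →
  (L ≤ e - d → b - a ≤ 4 * (e - d) → Pr (Ev fun c => crs true c k Set.univ a b d e) ≤ 1 - c₀) ∧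
  (L ≤ b - a → e - d ≤ 4 * (b - a) → Pr (Ev fun c => crs false c k Set.univ a b d e) ≤ 1 - c₀)

/-- **TRS** (short-medium; library `TP.TSY`). Even translations (`φ v = v + (2i, 2j)`, `br (φ v) = φ (br v)`); needs the locality of `crs` (LCR). -/
def TRS_stmt : Prop := ∀ (o k : Bool) (S : Finset V) (a b d e i j : ℤ),
  Pr (Ev fun c => crs o c k (til (shf (2 * i, 2 * j) S)) (a + 2 * i) (b + 2 * i) (d + 2 * j) (e + 2 * j)) = Pr (Ev fun c => crs o c k (til S) a b d e)

/-- **VSP** (medium). uses: `MNO_stmt CT0_stmt MEN_stmt DET_stmt LCR_stmt EIN_stmt BKM_stmt QRS_stmt TRS_stmt`. First `t ≥ L` (`L`, `c₀` of QRS). `o = true`: `s = t / 16`, `T` = the vectors `(2i, 2j)`, `0 ≤ i, j ≤ s`, `#T = (s+1)² ≥ t²/256`; the core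
`R' = (a, a + 6t + 2s, d + 2s, d + 2t)`: height `≥ (15/8) t ≥ L`, width `≤ (49/8) t ≤ 4 · height`. For `τ ∈ T` the event `F τ = crs (til (shf τ S))` for `R'` has probability at least that of the translated event (MNO: `a ≤ a + 2i`, `a + 2i + 6t ≤ a + 6t + 2s`, `d + 2j ≤ d + 2s`,
`d + 2t ≤ d + 2j + 2t`), which is `p = Pr (crs (til S) ..)` (TRS). Pointwise: let `K` be minimal with `cut` for `R'` (exists by CT0, `K ≤ M`); by MEN `many (K' + 1)` for all `K' < K`, so `K ≤ #{K' < M | many (K' + 1)}`, and by DET `#{τ ∈ T | F τ} ≤ K #S`. So by EIN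
`#T p ≤ #S ∑_{K' < M} Pr (many (K' + 1)) ≤ #S ∑ (1 - c₀)^(K'+1) ≤ #S / c₀` (BKM, QRS). `p ≤ 256 #S/(c₀ t²)`. If `t < L`: `p = 0` for `S = ∅` (`til ∅ = ∅`), otherwise `p ≤ 1 ≤ L² #S / t²`. `C = 256/c₀ + L²`. `o = false`: the same, core `(a + 2s, a + 2t, d, d + 6t + 2s)`. -/
def VSP_stmt : Prop := ∃ C : ℝ, 0 < C ∧ ∀ (k : Bool) (S : Finset V) (t : ℕ) (a d : ℤ), 1 ≤ t →
  Pr (Ev fun c => crs true c k (til S) a (a + 6 * t) d (d + 2 * t)) ≤ C * #S / (t : ℝ) ^ 2 ∧
  Pr (Ev fun c => crs false c k (til S) a (a + 2 * t) d (d + 6 * t)) ≤ C * #S / (t : ℝ) ^ 2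

/-- **SPR** (short-medium). uses: `ANR_stmt VSP_stmt LCR_stmt`. Let `S' = S.filter (sd x · ≤ 3t + 1)`. The four rectangles of ANR are in `box x (3t)`, so a crossing in `til S` is one in `til S'` (`sd x (br v) ≤ sd x v + 1`); VSP for `S'` (the sides: `x.1 + 3t = (x.1 - 3t) + 6t`, etc.), union bound. -/
def SPR_stmt : Prop := ∃ C : ℝ, 0 < C ∧ ∀ (k : Bool) (S : Finset V) (x : V) (t : ℕ), 1 ≤ t →
  Pr (Ev fun c => SR c k S x t) ≤ C * #(S.filter fun v => sd x v ≤ 3 * t + 1) / (t : ℝ) ^ 2

/-- **SUM** (medium). uses: `CV_stmt SPR_stmt`. Union bound in CV for each `v₀` (monotonicity and subadditivity of `Pr`; the first alternative does not depend on `c`: it costs `≤ #(S.filter (sd v₀ · ≤ 200))`): `Pr BAD ≤ #(S.filter (sd v₀ · ≤ 200)) + ∑_s ∑_k ∑_p ∑_q C #(S.filter (sd x · ≤ 3 · 2^s + 1)) / 4^s`.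
Sum over `v₀` and exchange: each `w ∈ S` is counted by at most `401²` resp. `(2 (3 t + 1) + 1)² ≤ 81 t²` points `v₀` (`t = 2^s`; `v₀ ↦ x` is a translation). Total `≤ #S (401² + (log₂ n + 1) · 2 · 801² · 81 C)`, and `1 ≤ 2 log n`, `log₂ n ≤ 2 log n` for `n ≥ 2`. -/
def SUM_stmt : Prop := ∃ C : ℝ, 0 < C ∧ ∀ (n : ℕ) (S : Finset V), 2 ≤ n → S ⊆ (univ : Finset (Fin n × Fin n)).image phi →
  ∑ v₀ ∈ (univ : Finset (Fin n × Fin n)).image phi, Pr (Ev fun c => BAD c S v₀) ≤ C * #S * Real.log n

/-- **FIN** (helper25 writes it). uses: `REA_stmt REB_stmt BR1_stmt BR2_stmt SUM_stmt LCR_stmt`. -/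
def FIN_stmt : Prop := ∃ c : ℝ, 0 < c ∧ ∀ n : ℕ, 2 ≤ n → ∀ (A : Finset (Fin n × Fin n)) (B : (Fin n × Fin n → Bool) → Finset (Fin n × Fin n)),
  (∀ x y : Fin n × Fin n → Bool, (∀ p ∈ A, x p = y p) → B x = B y) →
  (∀ x y : Fin n × Fin n → Bool, (∀ p ∈ A, x p = y p) → (∀ p ∈ B x, x p = y p) → (Crossing n x ↔ Crossing n y)) →
  c * (n : ℝ) ^ 2 / Real.log n ≤ (∑ x : Fin n × Fin n → Bool, (#(A ∪ B x) : ℝ)) / 2 ^ (n * n)

end TP.TW
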