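import Pool.Agent.helper25.TW.Spec

/-!
# Project TWO, part 2 (MP_f42afa_pr): no logarithm (helper25)

All rows of part 1 are proved: `E #BAD ≤ C #S log n`. Part 2 removes the logarithm: `E #BAD ≤ C #S`, so the algorithms of the theorem need `≥ c n²` queries (sharp up to the constant).

IDEA. (1) Vitali family: discs `box i (2 ^ h i)`, `i ∈ I`, of density `≥ 1/R`, disjoint (so `∑ 4 ^ h i ≤ R #S`), such that `S` is covered by the twice larger discs and every larger concentric disc has density `≤ 1/R`.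
(2) From the disc of `i` to distance `t` there is a path in `S` with probability `≤ (16 · 2 ^ h i / t)³`: independent annuli, each crossed with probability `≤ 16 C / R ≤ 1/512` by `SPR`. (3) A path in `S` of diameter `2 t` passes discs of total radius `≥ t/7`, so
`Pr SR ≤ (7/t) ∑ 2 ^ h i (16 · 2 ^ h i / t)³`. (4) Sites `v₀` with `sd v₀ i ≤ 512 · 2 ^ h i` for some `i`: at most `C R #S`. For the others only scales `t > 2 ^ h i` occur, and the sum over `v₀` and `t = 2 ^ s` is at most `C ∑ 4 ^ h i ≤ C R #S`.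

RULES. Row `XXX`: file `Pool/Agent/<seat>/TWO/XXX.lean`, `import Pool.Agent.helper25.TW.Spec2`, `set_option autoImplicit false`, `namespace TP.TW`, `open DP MeasureTheory Finset`; auxiliary lemmas private or prefixed `XXX_`. No straight double quotes, no convert / congr!.
Useful lemmas: `Pool/Agent/helper96/DP/Basic.lean` (`sd_triangle`, `Con.exit`, `Con.cross`, ...), `Pool/Agent/helper64/TP/Basic.lean` (`br_adj`, `sd_br_le`, `Loc.ev`, `BDis.of_sd`, ...).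
-/

set_option autoImplicit false

namespace TP.TW

open DP MeasureTheory Finset

/-- All discs around `i` of radius `2 ^ j`, `j > h`, have density at most `1 / R`. -/
def Low (R : ℕ) (S : Finset V) (i : V) (h : ℕ) : Prop := ∀ j : ℕ, h < j → R * #(S.filter fun b => sd i b ≤ 2 ^ j) ≤ 4 ^ j

/-- The Vitali family. -/
def Vit (R : ℕ) (S I : Finset V) (h : V → ℕ) : Prop :=
  (∀ a ∈ S, ∃ i ∈ I, sd a i ≤ 2 * 2 ^ h i) ∧ ∑ i ∈ I, 4 ^ h i ≤ R * #S ∧ ∀ i ∈ I, Low R S i (h i)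

/-- A path of colour `k` in the bricks of `S` from the disc of radius `3 · 2 ^ h` around `i` to distance `t`. -/
def TCH (c : V → Bool) (k : Bool) (S : Finset V) (i : V) (h t : ℕ) : Prop :=
  ∃ y z : V, sd i y ≤ 3 * 2 ^ h ∧ t ≤ sd y z ∧ Conn c k (til S) y z

/-- A crossing of the annulus `r ≤ sd x · ≤ 3 r` in the bricks of `S`. -/
def SRA (c : V → Bool) (k : Bool) (S : Finset V) (x : V) (r : ℕ) : Prop :=
  ∃ u v : V, sd x u = r ∧ sd x v = 3 * r ∧ Conn c k (til S ∩ ann x r (3 * r)) u v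

/-- **VIT** (short-medium). `h a = Nat.findGreatest (fun j => 4 ^ j ≤ R * #(S.filter (sd a · ≤ 2 ^ j))) (R * #S)`. For `a ∈ S` the property holds for `j = 0`, hence for `h a`; for `j > h a` it fails (`findGreatest`; for `j > R #S` because `4 ^ j > j > R #S`), so `Low`.
Vitali (`Vitali.exists_disjoint_subfamily_covering_enlargement` with `B a = box a (2 ^ h a)`, `t = S`, `δ a = 2 ^ h a`, `τ = 3/2`, or greedy by hand): `I ⊆ S` with disjoint discs, and each `a ∈ S` has `i ∈ I` whose disc meets the disc of `a` with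
`2 ^ h a ≤ (3/2) 2 ^ h i`, so `h a ≤ h i` and `sd a i ≤ 2 ^ h a + 2 ^ h i ≤ 2 · 2 ^ h i`. Disjointness: `∑ 4 ^ h i ≤ ∑ R #(S.filter (sd i · ≤ 2 ^ h i)) ≤ R #S`. -/
def VIT_stmt : Prop := ∀ (R : ℕ) (S : Finset V), 1 ≤ R → ∃ (I : Finset V) (h : V → ℕ), Vit R S I h

/-- **LEV** (medium). The path goes from `u` (`sd x u ≤ t`) to `v` (`3 t ≤ sd x v`), `sd x` changes by at most 1 at each step: for each level `m` with `t ≤ m ≤ 3 t` there is a site `y` of the path with `sd x y = m`, connected in the set to `u` and to `v`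
(`Con.exit` / `Con.cross`). `br y ∈ S`, so there is `i ∈ I` with `sd (br y) i ≤ 2 · 2 ^ h i`, `sd i y ≤ 3 · 2 ^ h i`. Since `sd u v ≥ 2 t`, one of `u`, `v` is at distance `≥ t` from `y`: `TCH`. `sd x i ≤ 3 t + 3 · 2 ^ h i`. `I'` = all such `i`.
A given `i` serves only levels `m` with `|m - sd x i| ≤ 3 · 2 ^ h i`, at most `6 · 2 ^ h i + 1 ≤ 7 · 2 ^ h i` levels; there are `2 t + 1` levels. -/
def LEV_stmt : Prop := ∀ (R : ℕ) (S I : Finset V) (h : V → ℕ) (c : V → Bool) (k : Bool) (x : V) (t : ℕ), 1 ≤ t → Vit R S I h → SR c k S x t →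
  ∃ I' : Finset V, I' ⊆ I ∧ (∀ i ∈ I', sd x i ≤ 3 * t + 3 * 2 ^ h i ∧ TCH c k S i (h i) t) ∧ t ≤ 7 * ∑ i ∈ I', 2 ^ h i

/-- **ARM** (short). `Con.cross` with `m = r`, `n = 3 r`, `r = 2 ^ (h + 2) · 8 ^ j`: `sd i y ≤ 3 · 2 ^ h ≤ r` and `sd i z ≥ t - 3 · 2 ^ h ≥ 16 · 2 ^ h · 8 ^ j - 3 · 2 ^ h ≥ 12 · 2 ^ h · 8 ^ j = 3 r`. -/
def ARM_stmt : Prop := ∀ (c : V → Bool) (k : Bool) (S : Finset V) (i : V) (h t J : ℕ), 2 ^ (h + 1) * 8 ^ J ≤ t → TCH c k S i h t →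
  ∀ j < J, SRA c k S i (2 ^ (h + 2) * 8 ^ j)

/-- **LC2** (short). Locality, as LCR (`Loc.ev`, `ann_finite`; `til S` is finite). -/
def LC2_stmt : Prop :=
  (∀ (k : Bool) (S : Finset V) (x : V) (r : ℕ), Loc (Ev fun c => SRA c k S x r) (ann x r (3 * r))) ∧
  (∀ (k : Bool) (S : Finset V) (i : V) (h t : ℕ), Loc (Ev fun c => TCH c k S i h t) (til S))

/-- Independence (library `C2_indep` of `Pool.Agent.helper61.TP.C12`, used as hypothesis). -/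
def IND_stmt : Prop := ∀ (F F' : Set (V → Bool)) (A A' : Set V), BDis A A' → Loc F A → Loc F' A' → Pr (F ∩ F') = Pr F * Pr F'

/-- **PRD** (medium). uses: `SPR_stmt LC2_stmt IND_stmt`. `C` from SPR, `R ≥ 8192 C`, `R ≥ 1`. Induction on `J`: the event for `J` is local in `box i (3 r)`, `r = 2 ^ (h + 2) · 8 ^ (J - 1)` (a finite intersection, `Loc.inter`, `Loc.mono`), the annulus of `SRA .. (8 r)` is at
distance `≥ 5 r ≥ 2` from this box (`BDis.of_sd`), so the probability of the intersection is the product. `SRA` implies `SR` (same `r`), and SPR gives `Pr ≤ C #(S.filter (sd i · ≤ 3 r + 1)) / r²`, `3 r + 1 ≤ 4 r = 2 ^ (h + 4 + 3 j)` for `r = 2 ^ (h + 2 + 3 j)`, so by `Low`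
the cardinality is at most `16 r² / R` and `Pr ≤ 16 C / R ≤ 1/512`. -/
def PRD_stmt : Prop := ∃ R : ℕ, 1 ≤ R ∧ ∀ (k : Bool) (S : Finset V) (i : V) (h : ℕ), Low R S i h → ∀ J : ℕ,
  Pr (Ev fun c => ∀ j < J, SRA c k S i (2 ^ (h + 2) * 8 ^ j)) ≤ (1 / 512 : ℝ) ^ J

/-- **TCP** (short-medium). uses: `ARM_stmt PRD_stmt`. If `t < 2 ^ (h + 1)` the right side is at least 1. Otherwise let `J` be maximal with `2 ^ (h + 1) · 8 ^ J ≤ t`; `t < 2 ^ (h + 1) · 8 ^ (J + 1)`, `Pr ≤ (1/512)^J = ((1/8)^J)³` and `(1/8)^J ≤ 16 · 2 ^ h / t`. -/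
def TCP_stmt : Prop := ∃ R : ℕ, 1 ≤ R ∧ ∀ (k : Bool) (S : Finset V) (i : V) (h : ℕ), Low R S i h → ∀ t : ℕ, 1 ≤ t →
  Pr (Ev fun c => TCH c k S i h t) ≤ (16 * 2 ^ h / (t : ℝ)) ^ 3

/-- **SRB** (medium). uses: `LEV_stmt TCP_stmt LCR_stmt LC2_stmt EIN_stmt`. Pointwise `t · 1[SR] ≤ 7 ∑_i 2 ^ h i · 1[TCH i]` over `i ∈ I` with `sd x i ≤ 3 t + 3 · 2 ^ h i` (LEV); take expectations, for example by EIN with `s = range t`, `F _ = Ev SR`, and for the other side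
`(I.filter ..) ×ˢ`-like index set of the pairs `(i, l)`, `l < 7 · 2 ^ h i` (a `Finset (V × ℕ)`, e.g. a `biUnion` or a `sigma`), `G (i, l) = Ev TCH i`, `N = 1`; then TCP for each `i`. -/
def SRB_stmt : Prop := ∃ R : ℕ, 1 ≤ R ∧ ∀ (S I : Finset V) (h : V → ℕ), Vit R S I h → ∀ (k : Bool) (x : V) (t : ℕ), 1 ≤ t →
  Pr (Ev fun c => SR c k S x t) ≤ 7 / (t : ℝ) * ∑ i ∈ I.filter fun i => sd x i ≤ 3 * t + 3 * 2 ^ h i, 2 ^ h i * (16 * 2 ^ h i / (t : ℝ)) ^ 3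

/-- **GDS** (short-medium). uses: `CV_stmt`. The first alternative of CV is impossible: `w ∈ S`, `sd v₀ w ≤ 200`, `sd w i ≤ 2 · 2 ^ h i`, so `sd v₀ i ≤ 202 · 2 ^ h i`. Union bound for the second one (monotonicity and finite subadditivity of `Pr = P1.real`, no measurability needed). -/
def GDS_stmt : Prop := ∀ (n R : ℕ) (S I : Finset V) (h : V → ℕ) (v₀ : V), 2 ≤ n → S ⊆ (univ : Finset (Fin n × Fin n)).image phi →
  v₀ ∈ (univ : Finset (Fin n × Fin n)).image phi → Vit R S I h → (∀ i ∈ I, 512 * 2 ^ h i < sd v₀ i) →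
  Pr (Ev fun c => BAD c S v₀) ≤ ∑ s ∈ range (Nat.log 2 n + 1), ∑ k : Bool, ∑ p ∈ Icc (-400 : ℤ) 400, ∑ q ∈ Icc (-400 : ℤ) 400,
    Pr (Ev fun c => SR c k S (v₀.1 + 2 ^ s * p, v₀.2 + 2 ^ s * q) (2 ^ s))

/-- **DBL** (medium). Pure counting. `x = (v₀.1 + 2 ^ s p, v₀.2 + 2 ^ s q)`, `sd v₀ x ≤ 400 · 2 ^ s`. For `v₀ ∈ G` and `i` in the inner sum: `512 · 2 ^ h < sd v₀ i ≤ 403 · 2 ^ s + 3 · 2 ^ h`, so `h < s` (`h = h i`), and `sd x i ≤ 6 · 2 ^ s`. Exchange the sums: for fixed `i, s, p, q` there are at most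
`(12 · 2 ^ s + 1)² ≤ 169 · 4 ^ s` points `v₀`. Total `≤ ∑_i ∑_{s > h} 801² · 169 · 4 ^ s · (7 / 2 ^ s) · 2 ^ h · 16³ · 8 ^ h / 8 ^ s = C ∑_i 16 ^ h ∑_{s > h} 4 ^ (-s) ≤ C ∑_i 4 ^ h`. -/
def DBL_stmt : Prop := ∃ C : ℝ, 0 < C ∧ ∀ (L : ℕ) (G I : Finset V) (h : V → ℕ), (∀ v₀ ∈ G, ∀ i ∈ I, 512 * 2 ^ h i < sd v₀ i) →
  ∑ v₀ ∈ G, ∑ s ∈ range L, ∑ p ∈ Icc (-400 : ℤ) 400, ∑ q ∈ Icc (-400 : ℤ) 400, 7 / (2 : ℝ) ^ s *
    ∑ i ∈ I.filter (fun i => sd (v₀.1 + 2 ^ s * p, v₀.2 + 2 ^ s * q) i ≤ 3 * 2 ^ s + 3 * 2 ^ h i), 2 ^ h i * (16 * 2 ^ h i / (2 : ℝ) ^ s) ^ 3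
    ≤ C * ∑ i ∈ I, (4 : ℝ) ^ h i

/-- **SU2** (medium). uses: `VIT_stmt SRB_stmt GDS_stmt DBL_stmt`. `R` from SRB, `I, h` from VIT. Split the image of `phi` into `G` = the `v₀` with `512 · 2 ^ h i < sd v₀ i` for all `i ∈ I` and the rest. Rest: `Pr ≤ 1` and at most `∑_i (1024 · 2 ^ h i + 1)² ≤ 1025² ∑ 4 ^ h i ≤ 1025² R #S` points.
`G`: GDS, then SRB with `t = 2 ^ s` for each term (both values of `k`: factor 2), then DBL with `L = Nat.log 2 n + 1`: `≤ 2 C ∑ 4 ^ h i ≤ 2 C R #S`. -/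
def SU2_stmt : Prop := ∃ C : ℝ, 0 < C ∧ ∀ (n : ℕ) (S : Finset V), 2 ≤ n → S ⊆ (univ : Finset (Fin n × Fin n)).image phi →
  ∑ v₀ ∈ (univ : Finset (Fin n × Fin n)).image phi, Pr (Ev fun c => BAD c S v₀) ≤ C * #S

end TP.TW
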